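import Pool.Agent.Run7.h478.EB.Defs

/-!
# A ground state compared with another configuration in a box
-/

set_option autoImplicit false

open MeasureTheory Finset

namespace Pool.Agent.Run7.H478.EB

variable {d : ℕ}

/-- the box -/
noncomputable def box (n : ℕ) : Finset (Site d) := Fintype.piFinset fun _ => Finset.Ico (0 : ℤ) (n + 3)

/-- the box with one layer removed -/
noncomputable def mid (n : ℕ) : Finset (Site d) := Fintype.piFinset fun _ => Finset.Ico (1 : ℤ) (n + 2)

/-- the box with more layers removed -/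
noncomputable def core (n : ℕ) : Finset (Site d) := Fintype.piFinset fun _ => Finset.Ico (1 : ℤ) (n + 1)

/-- the box with one layer added -/
noncomputable def wide (n : ℕ) : Finset (Site d) := Fintype.piFinset fun _ => Finset.Ico (0 : ℤ) (n + 4)

theorem mem_box {n : ℕ} {x : Site d} : x ∈ box n ↔ ∀ j, 0 ≤ x j ∧ x j < n + 3 := by
  simp [box]

theorem mem_mid {n : ℕ} {x : Site d} : x ∈ mid n ↔ ∀ j, 1 ≤ x j ∧ x j < n + 2 := by
  simp [mid]

theorem mem_core {n : ℕ} {x : Site d} : x ∈ core n ↔ ∀ j, 1 ≤ x j ∧ x j < n + 1 := by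
  simp [core]

theorem mem_wide {n : ℕ} {x : Site d} : x ∈ wide n ↔ ∀ j, 0 ≤ x j ∧ x j < n + 4 := by
  simp [wide]

theorem card_box (n : ℕ) : (box n : Finset (Site d)).card = (n + 3) ^ d := by
  unfold box
  rw [Fintype.card_piFinset]
  simp only [Int.card_Ico, Finset.prod_const, Finset.card_univ, Fintype.card_fin]
  congr 1

theorem card_core (n : ℕ) : (core n : Finset (Site d)).card = n ^ d := by
  unfold core
  rw [Fintype.card_piFinset]
  simp only [Int.card_Ico, Finset.prod_const, Finset.card_univ, Fintype.card_fin]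
  congr 1
  omega

theorem tip_apply (x : Site d) (i j : Fin d) :
    tip (x, i) j = x j + if j = i then 1 else 0 := by
  unfold tip
  rw [Pi.add_apply, Pi.single_apply]

theorem core_tip {n : ℕ} {x : Site d} (h : x ∈ core n) (i : Fin d) : tip (x, i) ∈ mid n := by
  rw [mem_core] at h
  rw [mem_mid]
  intro j
  have := h j
  rw [tip_apply]
  split_ifs <;> omega

theorem core_mid {n : ℕ} {x : Site d} (h : x ∈ core n) : x ∈ mid n := by
  rw [mem_core] at h
  rw [mem_mid]
  intro j
  have := h j
  omega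

theorem mid_box {n : ℕ} {x : Site d} (h : x ∈ mid n) : x ∈ box n := by
  rw [mem_mid] at h
  rw [mem_box]
  intro j
  have := h j
  omega

theorem tip_mid_box {n : ℕ} {x : Site d} {i : Fin d} (h : tip (x, i) ∈ mid n) : x ∈ box n := by
  rw [mem_mid] at h
  rw [mem_box]
  intro j
  have := h j
  rw [tip_apply] at this
  split_ifs at this <;> omega

theorem box_wide {n : ℕ} {x : Site d} (h : x ∈ box n) : x ∈ wide n := by
  rw [mem_box] at h
  rw [mem_wide]
  intro j
  have := h j
  omega

theorem box_tip_wide {n : ℕ} {x : Site d} (h : x ∈ box n) (i : Fin d) : tip (x, i) ∈ wide n := by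
  rw [mem_box] at h
  rw [mem_wide]
  intro j
  have := h j
  rw [tip_apply]
  split_ifs <;> omega

/-- the bonds starting in the box -/
noncomputable def T (n : ℕ) : Finset (Bond d) := (box n) ×ˢ Finset.univ

theorem mem_T {n : ℕ} {e : Bond d} : e ∈ T n ↔ e.1 ∈ box n := by
  simp [T]

theorem abs_sub_le_two {a b : ℝ} (ha : a = 1 ∨ a = -1) (hb : b = 1 ∨ b = -1) : |a - b| ≤ 2 := by
  rcases ha with rfl | rfl <;> rcases hb with rfl | rfl <;> norm_num

theorem mul_spin {a b : ℝ} (ha : a = 1 ∨ a = -1) (hb : b = 1 ∨ b = -1) :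
    a * b = 1 ∨ a * b = -1 := by
  rcases ha with rfl | rfl <;> rcases hb with rfl | rfl <;> norm_num

/-- the error term -/
def err (d : ℕ) (C : ℝ) (n : ℕ) : ℝ := 2 * C * d * (((n : ℝ) + 3) ^ d - (n : ℝ) ^ d)

theorem sum_core (C : ℝ) (n : ℕ) :
    ∑ e ∈ (T n : Finset (Bond d)), (if e.1 ∈ (core n : Finset (Site d)) then (0 : ℝ) else 2 * C) =
      err d C n := by
  unfold T err
  rw [Finset.sum_product]
  have h0 : ∀ x : Site d, ∑ i : Fin d, (if ((x, i) : Bond d).1 ∈ (core n : Finset (Site d)) then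
      (0 : ℝ) else 2 * C) = d * (if x ∈ (core n : Finset (Site d)) then (0 : ℝ) else 2 * C) := by
    intro x
    show ∑ i : Fin d, (if x ∈ (core n : Finset (Site d)) then (0 : ℝ) else 2 * C) = _
    rw [Finset.sum_const, Finset.card_univ, Fintype.card_fin, nsmul_eq_mul]
  rw [Finset.sum_congr rfl fun x _ => h0 x, ← Finset.mul_sum]
  have h1 : ∀ x : Site d, (if x ∈ (core n : Finset (Site d)) then (0 : ℝ) else 2 * C) =
      2 * C - (if x ∈ (core n : Finset (Site d)) then 2 * C else 0) := by
    intro x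
    split_ifs <;> ring
  simp only [h1]
  rw [Finset.sum_sub_distrib, Finset.sum_ite_mem,
    Finset.inter_eq_right.2 (fun x hx => mid_box (core_mid hx)), Finset.sum_const, Finset.sum_const,
    card_box, card_core]
  simp only [nsmul_eq_mul]
  push_cast
  ring

theorem gs_ineq {J : Bond d → ℝ} {σ : Site d → ℝ} (h : IsGroundState J σ) {C : ℝ}
    (hC : ∀ e, |J e| ≤ C) {η : Site d → ℝ} (hη : ∀ x, η x = 1 ∨ η x = -1) (n : ℕ) :
    ∑ e ∈ (T n : Finset (Bond d)), J e * (η e.1 * η (tip e)) ≤
      ∑ e ∈ (T n : Finset (Bond d)), J e * (σ e.1 * σ (tip e)) + err d C n := by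
  classical
  obtain ⟨hσ, hgs⟩ := h
  let ρ : Site d → ℝ := fun x => if x ∈ (mid n : Finset (Site d)) then η x else σ x
  have hρ : ∀ x, ρ x = 1 ∨ ρ x = -1 := by
    intro x
    show (if x ∈ (mid n : Finset (Site d)) then η x else σ x) = 1 ∨
      (if x ∈ (mid n : Finset (Site d)) then η x else σ x) = -1
    split_ifs
    · exact hη x
    · exact hσ x
  have hρin : ∀ x, x ∈ (mid n : Finset (Site d)) → ρ x = η x := fun x hx => if_pos hx
  have hρout : ∀ x, x ∉ (mid n : Finset (Site d)) → ρ x = σ x := fun x hx => if_neg hx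
  have hfin : {x | ρ x ≠ σ x}.Finite := by
    refine (Finset.finite_toSet (mid n : Finset (Site d))).subset fun x hx => ?_
    by_contra hx'
    exact hx (hρout x hx')
  have h0 := hgs ρ hρ hfin
  rw [finsum_eq_sum_of_support_subset (s := (T n : Finset (Bond d))) _ ?_] at h0
  · have h1 : ∀ e ∈ (T n : Finset (Bond d)), J e * (η e.1 * η (tip e)) ≤
        J e * (ρ e.1 * ρ (tip e)) + (if e.1 ∈ (core n : Finset (Site d)) then (0 : ℝ) else 2 * C) := by
      intro e _
      split_ifs with hc
      · have e1 : ρ e.1 = η e.1 := hρin _ (core_mid hc)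
        have e2 : ρ (tip e) = η (tip e) := hρin _ (core_tip hc e.2)
        rw [e1, e2, add_zero]
      · have h2 : |η e.1 * η (tip e) - ρ e.1 * ρ (tip e)| ≤ 2 :=
          abs_sub_le_two (mul_spin (hη _) (hη _)) (mul_spin (hρ _) (hρ _))
        have h3 : J e * (η e.1 * η (tip e) - ρ e.1 * ρ (tip e)) ≤ C * 2 := by
          refine (le_abs_self _).trans ?_
          rw [abs_mul]
          exact mul_le_mul (hC e) h2 (abs_nonneg _) ((abs_nonneg _).trans (hC e))
        linarith [mul_sub (J e) (η e.1 * η (tip e)) (ρ e.1 * ρ (tip e))]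
    have h2 := Finset.sum_le_sum h1
    rw [Finset.sum_add_distrib, sum_core] at h2
    have h3 : ∑ e ∈ (T n : Finset (Bond d)), J e * (σ e.1 * σ (tip e) - ρ e.1 * ρ (tip e)) =
        ∑ e ∈ (T n : Finset (Bond d)), J e * (σ e.1 * σ (tip e)) -
          ∑ e ∈ (T n : Finset (Bond d)), J e * (ρ e.1 * ρ (tip e)) := by
      rw [← Finset.sum_sub_distrib]
      exact Finset.sum_congr rfl fun e _ => mul_sub _ _ _
    rw [h3] at h0
    linarith
  · intro e he
    rw [Function.mem_support] at he
    rw [Finset.mem_coe, mem_T]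
    by_contra hb
    apply he
    have e1 : ρ e.1 = σ e.1 := hρout _ fun h' => hb (mid_box h')
    have e2 : ρ (tip e) = σ (tip e) := hρout _ fun h' => hb (tip_mid_box (i := e.2) h')
    rw [e1, e2, sub_self, mul_zero]

/-- the configuration with the set `A` of plus spins -/
noncomputable def eta (A : Finset (Site d)) (x : Site d) : ℝ :=
  open Classical in if x ∈ A then 1 else -1

theorem eta_spin (A : Finset (Site d)) (x : Site d) : eta A x = 1 ∨ eta A x = -1 := by
  unfold eta
  split_ifs
  · exact Or.inl rfl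
  · exact Or.inr rfl

/-- the optimum in the box -/
noncomputable def best (n : ℕ) (J : Bond d → ℝ) : ℝ :=
  (wide n : Finset (Site d)).powerset.sup' ⟨∅, by simp⟩ fun A =>
    ∑ e ∈ (T n : Finset (Bond d)), J e * (eta A e.1 * eta A (tip e))

theorem best_le {J : Bond d → ℝ} {σ : Site d → ℝ} (h : IsGroundState J σ) {C : ℝ}
    (hC : ∀ e, |J e| ≤ C) (n : ℕ) :
    best n J ≤ ∑ e ∈ (T n : Finset (Bond d)), J e * (σ e.1 * σ (tip e)) + err d C n :=
  Finset.sup'_le _ _ fun A _ => gs_ineq h hC (eta_spin A) n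

theorem le_best {J : Bond d → ℝ} {σ : Site d → ℝ} (h : ∀ x, σ x = 1 ∨ σ x = -1) (n : ℕ) :
    ∑ e ∈ (T n : Finset (Bond d)), J e * (σ e.1 * σ (tip e)) ≤ best n J := by
  classical
  let A : Finset (Site d) := (wide n).filter fun x => σ x = 1
  have hA : ∀ x ∈ (wide n : Finset (Site d)), eta A x = σ x := by
    intro x hx
    unfold eta
    rcases h x with h1 | h1
    · rw [if_pos (by simp [A, hx, h1]), h1]
    · rw [if_neg (by simp [A, h1]; norm_num), h1]
  have h1 : ∑ e ∈ (T n : Finset (Bond d)), J e * (σ e.1 * σ (tip e)) =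
      ∑ e ∈ (T n : Finset (Bond d)), J e * (eta A e.1 * eta A (tip e)) := by
    refine Finset.sum_congr rfl fun e he => ?_
    rw [mem_T] at he
    rw [hA _ (box_wide he), hA _ (box_tip_wide he e.2)]
  rw [h1]
  exact Finset.le_sup' (s := (wide n : Finset (Site d)).powerset) (f := fun A =>
    ∑ e ∈ (T n : Finset (Bond d)), J e * (eta A e.1 * eta A (tip e)))
    (Finset.mem_powerset.2 (Finset.filter_subset _ _))

end Pool.Agent.Run7.H478.EB
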