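import Mathlib

/-!
# Random ground states of the Edwards–Anderson model

Definitions used in the statement of `MP_37ff18_mp.BondStatistics`. The sites are the points of
`ℤ^d`; the bond `(x, i)` joins `x` and `x + e_i`, as in the frozen statement of the problem.
-/

set_option autoImplicit false

open MeasureTheory

namespace Pool.Agent.Run7.H478.EB

/-- The sites. -/
abbrev Site (d : ℕ) : Type := Fin d → ℤ

/-- The bonds. -/
abbrev Bond (d : ℕ) : Type := Site d × Fin d

/-- The other end of the bond `e`. -/
abbrev tip {d : ℕ} (e : Bond d) : Site d := e.1 + (Pi.single e.2 (1 : ℤ) : Fin d → ℤ)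

/-- `σ` is an infinite-volume ground state for the couplings `J`: no change at finitely many sites
decreases the energy `- ∑ J (x, i) σ x σ (x + e_i)`. (The ground states of the problem, for which
every such change increases the energy, are ground states in this sense.) -/
def IsGroundState {d : ℕ} (J : Bond d → ℝ) (σ : Site d → ℝ) : Prop :=
  (∀ x, σ x = 1 ∨ σ x = -1) ∧
    ∀ ρ : Site d → ℝ, (∀ x, ρ x = 1 ∨ ρ x = -1) → {x | ρ x ≠ σ x}.Finite →
      0 ≤ ∑ᶠ e : Bond d, J e * (σ e.1 * σ (tip e) - ρ e.1 * ρ (tip e))

/-- Translation of a field on the bonds and a field on the sites. -/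
def shift {d : ℕ} {S : Type*} (a : Site d) (p : (Bond d → S) × (Site d → ℝ)) :
    (Bond d → S) × (Site d → ℝ) :=
  (fun e => p.1 (e.1 + a, e.2), fun x => p.2 (x + a))

/-- A random ground state for the couplings `F (U e)`, where `U` is a random field on the bonds of law
`ν`: a joint law `κ` of `U` and a spin configuration `σ`, invariant under translations, with the law `ν`
for `U`, such that `σ` is almost surely a ground state. -/
structure IsRandomGroundState {d : ℕ} {S : Type*} [MeasurableSpace S] (ν : Measure (Bond d → S))
    (F : S → ℝ) (κ : Measure ((Bond d → S) × (Site d → ℝ))) : Prop where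
  prob : IsProbabilityMeasure κ
  marginal : κ.map Prod.fst = ν
  invariant : ∀ a : Site d, κ.map (shift a) = κ
  ground : ∀ᵐ p ∂κ, IsGroundState (fun e => F (p.1 e)) p.2

/-- The bonds at the origin have `U (0, i) ∈ A` and parallel spins: the sum of the probabilities over
the `d` directions `i` (this is the density of such bonds per site). -/
noncomputable def density {d : ℕ} {S : Type*} [MeasurableSpace S]
    (κ : Measure ((Bond d → S) × (Site d → ℝ))) (A : Set S) : ENNReal :=
  ∑ i : Fin d, κ {p | p.1 (0, i) ∈ A ∧ p.2 0 * p.2 (Pi.single i (1 : ℤ)) = 1}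

end Pool.Agent.Run7.H478.EB
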