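import Pool.Agent.Run7.h478.EB.Box

/-!
# Random ground states maximise the energy density
-/

set_option autoImplicit false
set_option linter.unusedSectionVars false

open MeasureTheory Finset Filter Topology

namespace Pool.Agent.Run7.H478.EB

variable {d : ℕ} {S : Type*} [MeasurableSpace S]

/-- stationary joint laws of `U` and a spin configuration -/
structure Stat (ν : Measure (Bond d → S)) (κ : Measure ((Bond d → S) × (Site d → ℝ))) : Prop where
  prob : IsProbabilityMeasure κ
  marginal : κ.map Prod.fst = ν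
  invariant : ∀ a : Site d, κ.map (shift a) = κ
  spin : ∀ᵐ p ∂κ, ∀ x, p.2 x = 1 ∨ p.2 x = -1

/-- the function of one bond -/
def bf (G : S → ℝ) (e : Bond d) (p : (Bond d → S) × (Site d → ℝ)) : ℝ :=
  G (p.1 e) * (p.2 e.1 * p.2 (tip e))

theorem bf_meas {G : S → ℝ} (hG : Measurable G) (e : Bond d) : Measurable (bf G e) := by
  have h1 : Measurable fun p : (Bond d → S) × (Site d → ℝ) => p.1 e :=
    (measurable_pi_apply e).comp measurable_fst
  have h2 : ∀ x, Measurable fun p : (Bond d → S) × (Site d → ℝ) => p.2 x := fun x =>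
    (measurable_pi_apply x).comp measurable_snd
  exact (hG.comp h1).mul ((h2 _).mul (h2 _))

variable {ν : Measure (Bond d → S)} {κ κ' : Measure ((Bond d → S) × (Site d → ℝ))}

theorem abs_spin {a b : ℝ} (ha : a = 1 ∨ a = -1) (hb : b = 1 ∨ b = -1) : |a * b| = 1 := by
  rcases ha with rfl | rfl <;> rcases hb with rfl | rfl <;> norm_num

theorem bf_int (h : Stat ν κ) {G : S → ℝ} (hG : Measurable G) {C : ℝ} (hC : ∀ s, |G s| ≤ C)
    (e : Bond d) : Integrable (bf G e) κ := by
  have := h.prob
  refine Integrable.of_bound (bf_meas hG e).aestronglyMeasurable C ?_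
  filter_upwards [h.spin] with p hp
  unfold bf
  rw [Real.norm_eq_abs, abs_mul, abs_spin (hp _) (hp _), mul_one]
  exact hC _

theorem shift_meas (a : Site d) :
    Measurable (shift a : (Bond d → S) × (Site d → ℝ) → (Bond d → S) × (Site d → ℝ)) := by
  refine Measurable.prodMk (measurable_pi_lambda _ fun e => ?_) (measurable_pi_lambda _ fun x => ?_)
  · exact (measurable_pi_apply _).comp measurable_fst
  · exact (measurable_pi_apply _).comp measurable_snd

theorem bf_shift (G : S → ℝ) (x : Site d) (i : Fin d) (p : (Bond d → S) × (Site d → ℝ)) :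
    bf G (0, i) (shift x p) = bf G (x, i) p := by
  unfold bf shift tip
  simp only [zero_add]
  rw [add_comm (Pi.single i (1 : ℤ)) x]

/-- the energy density (with the sign changed) -/
noncomputable def u (κ : Measure ((Bond d → S) × (Site d → ℝ))) (G : S → ℝ) : ℝ :=
  ∑ i : Fin d, ∫ p, bf G (0, i) p ∂κ

theorem int_bf (h : Stat ν κ) {G : S → ℝ} (hG : Measurable G) (x : Site d) (i : Fin d) :
    ∫ p, bf G (x, i) p ∂κ = ∫ p, bf G (0, i) p ∂κ := by
  conv_rhs => rw [← h.invariant x]
  rw [integral_map (shift_meas x).aemeasurable (bf_meas hG _).aestronglyMeasurable]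
  simp only [bf_shift]

theorem int_sum (h : Stat ν κ) {G : S → ℝ} (hG : Measurable G) {C : ℝ} (hC : ∀ s, |G s| ≤ C)
    (n : ℕ) : ∫ p, ∑ e ∈ (T n : Finset (Bond d)), bf G e p ∂κ = ((n : ℝ) + 3) ^ d * u κ G := by
  rw [integral_finsetSum _ fun e _ => bf_int h hG hC e]
  unfold T
  rw [Finset.sum_product]
  have h1 : ∀ x : Site d, ∑ i : Fin d, ∫ p, bf G (x, i) p ∂κ = u κ G := fun x =>
    Finset.sum_congr rfl fun i _ => int_bf h hG x i
  rw [Finset.sum_congr rfl fun x _ => h1 x, Finset.sum_const, card_box, nsmul_eq_mul]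
  push_cast
  ring

theorem abs_sum_le {J : Bond d → ℝ} {C : ℝ} (hC : ∀ e, |J e| ≤ C) {η : Site d → ℝ}
    (hη : ∀ x, η x = 1 ∨ η x = -1) (n : ℕ) :
    |∑ e ∈ (T n : Finset (Bond d)), J e * (η e.1 * η (tip e))| ≤
      (T n : Finset (Bond d)).card * C := by
  refine (Finset.abs_sum_le_sum_abs _ _).trans ?_
  rw [← nsmul_eq_mul]
  refine Finset.sum_le_card_nsmul _ _ _ fun e _ => ?_
  rw [abs_mul, abs_spin (hη _) (hη _), mul_one]
  exact hC e

theorem best_meas {F : S → ℝ} (hF : Measurable F) (n : ℕ) :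
    Measurable fun U : Bond d → S => best n fun e => F (U e) := by
  have h := Finset.measurable_sup' (s := (wide n : Finset (Site d)).powerset) ⟨∅, by simp⟩
    (f := fun A (U : Bond d → S) =>
      ∑ e ∈ (T n : Finset (Bond d)), F (U e) * (eta A e.1 * eta A (tip e)))
    (fun A _ => Finset.measurable_sum _ fun e _ =>
      (hF.comp (measurable_pi_apply e)).mul measurable_const)
  convert h using 1
  ext U
  rw [Finset.sup'_apply]
  rfl

theorem best_abs {J : Bond d → ℝ} {C : ℝ} (hC : ∀ e, |J e| ≤ C) (n : ℕ) :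
    |best n J| ≤ (T n : Finset (Bond d)).card * C := by
  rw [abs_le]
  constructor
  · exact (abs_le.1 (abs_sum_le hC (eta_spin ∅) n)).1.trans (le_best (eta_spin ∅) n)
  · exact Finset.sup'_le _ _ fun A _ => (abs_le.1 (abs_sum_le hC (eta_spin A) n)).2

theorem best_int (h : Stat ν κ) {F : S → ℝ} (hF : Measurable F) {C : ℝ} (hC : ∀ s, |F s| ≤ C)
    (n : ℕ) : Integrable (fun p : (Bond d → S) × (Site d → ℝ) => best n fun e => F (p.1 e)) κ := by
  have := h.prob
  refine Integrable.of_bound ((best_meas hF n).comp measurable_fst).aestronglyMeasurable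
    ((T n : Finset (Bond d)).card * C) (Filter.Eventually.of_forall fun p => ?_)
  rw [Real.norm_eq_abs]
  exact best_abs (fun e => hC _) n

theorem best_marginal (h : Stat ν κ) {F : S → ℝ} (hF : Measurable F) (n : ℕ) :
    ∫ p, (best n fun e => F (p.1 e)) ∂κ = ∫ U, (best n fun e => F (U e)) ∂ν := by
  rw [← h.marginal, integral_map measurable_fst.aemeasurable (best_meas hF n).aestronglyMeasurable]

theorem compare_box (h : Stat ν κ) {F : S → ℝ} (hF : Measurable F) {C : ℝ} (hC : ∀ s, |F s| ≤ C)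
    (hgs : ∀ᵐ p ∂κ, IsGroundState (fun e => F (p.1 e)) p.2) (h' : Stat ν κ') (n : ℕ) :
    ((n : ℝ) + 3) ^ d * u κ' F ≤ ((n : ℝ) + 3) ^ d * u κ F + err d C n := by
  have hp := h.prob
  rw [← int_sum h' hF hC n, ← int_sum h hF hC n]
  have h1 : ∫ p, ∑ e ∈ (T n : Finset (Bond d)), bf F e p ∂κ' ≤
      ∫ p, (best n fun e => F (p.1 e)) ∂κ' := by
    refine integral_mono_ae (integrable_finsetSum _ fun e _ => bf_int h' hF hC e)
      (best_int h' hF hC n) ?_
    filter_upwards [h'.spin] with p hp'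
    exact le_best hp' n
  have h2 : ∫ p, (best n fun e => F (p.1 e)) ∂κ ≤
      ∫ p, (∑ e ∈ (T n : Finset (Bond d)), bf F e p + err d C n) ∂κ := by
    refine integral_mono_ae (best_int h hF hC n)
      ((integrable_finsetSum _ fun e _ => bf_int h hF hC e).add (integrable_const _)) ?_
    filter_upwards [hgs] with p hp'
    exact best_le hp' (fun e => hC _) n
  rw [integral_add (integrable_finsetSum _ fun e _ => bf_int h hF hC e) (integrable_const _),
    integral_const] at h2
  rw [probReal_univ, one_smul] at h2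
  rw [best_marginal h' hF n] at h1
  rw [best_marginal h hF n] at h2
  linarith

/-- random ground states maximise the energy density -/
theorem compare (h : Stat ν κ) {F : S → ℝ} (hF : Measurable F) {C : ℝ} (hC : ∀ s, |F s| ≤ C)
    (hgs : ∀ᵐ p ∂κ, IsGroundState (fun e => F (p.1 e)) p.2) (h' : Stat ν κ') :
    u κ' F ≤ u κ F := by
  have h1 : ∀ n : ℕ, u κ' F ≤ u κ F + 2 * C * d * (1 - ((n : ℝ) / (n + 3)) ^ d) := by
    intro n
    have h2 := compare_box h hF hC hgs h' n
    have hpos : (0 : ℝ) < ((n : ℝ) + 3) ^ d := by positivity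
    unfold err at h2
    have h3 : ((n : ℝ) + 3) ^ d * (2 * C * d * (1 - ((n : ℝ) / (n + 3)) ^ d)) =
        2 * C * d * (((n : ℝ) + 3) ^ d - (n : ℝ) ^ d) := by
      rw [div_pow]
      field_simp
    have h4 : ((n : ℝ) + 3) ^ d * u κ' F ≤
        ((n : ℝ) + 3) ^ d * (u κ F + 2 * C * d * (1 - ((n : ℝ) / (n + 3)) ^ d)) := by
      rw [mul_add, h3]
      exact h2
    exact le_of_mul_le_mul_left h4 hpos
  have h2 : Tendsto (fun n : ℕ => u κ F + 2 * C * d * (1 - ((n : ℝ) / (n + 3)) ^ d)) atTop
      (𝓝 (u κ F + 2 * C * d * (1 - (1 : ℝ) ^ d))) := by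
    have h3 : Tendsto (fun n : ℕ => (n : ℝ) / (n + 3)) atTop (𝓝 1) :=
      tendsto_natCast_div_add_atTop (3 : ℝ)
    exact ((tendsto_const_nhds.sub (h3.pow d)).const_mul _).const_add _
  have h3 := ge_of_tendsto' h2 h1
  simpa using h3

end Pool.Agent.Run7.H478.EB
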