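import Mathlib

/-!
# Generic uniqueness of maximising functionals
-/

set_option autoImplicit false
set_option linter.unusedSectionVars false

open Set Filter Topology

namespace Pool.Agent.Run7.H478.EB

variable {X : Type*} [NormedAddCommGroup X] [NormedSpace ℝ X] {I : Type*} [Nonempty I]

section

variable (l : I → X →ₗ[ℝ] ℝ) (C : ℝ)

/-- the support function -/
noncomputable def phi (F : X) : ℝ := ⨆ i, l i F

variable {l C} (hC : ∀ i F, |l i F| ≤ C * ‖F‖)

include hC

theorem le_phi (i : I) (F : X) : l i F ≤ phi l F :=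
  le_ciSup (f := fun i => l i F) ⟨C * ‖F‖, by
    rintro _ ⟨j, rfl⟩
    exact (le_abs_self _).trans (hC j F)⟩ i

theorem phi_le (F G : X) : phi l F ≤ phi l G + C * ‖F - G‖ := by
  refine ciSup_le fun i => ?_
  have h1 : l i F = l i G + l i (F - G) := by rw [map_sub]; ring
  rw [h1]
  exact add_le_add (le_phi hC i G) ((le_abs_self _).trans (hC i _))

theorem phi_abs (F G : X) : |phi l F - phi l G| ≤ C * ‖F - G‖ := by
  rw [abs_sub_le_iff]
  have h1 := phi_le hC F G
  have h2 := phi_le hC G F
  rw [norm_sub_rev] at h2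
  constructor <;> linarith

theorem C_nonneg_or (F : X) : 0 ≤ C * ‖F‖ :=
  (abs_nonneg _).trans (hC (Classical.arbitrary I) F)

theorem phi_cont : Continuous (phi l) := by
  have h : LipschitzWith (Real.toNNReal |C|) (phi l) := by
    refine LipschitzWith.of_dist_le_mul fun F G => ?_
    rw [Real.dist_eq, dist_eq_norm, Real.coe_toNNReal _ (abs_nonneg C)]
    exact (phi_abs hC F G).trans (mul_le_mul_of_nonneg_right (le_abs_self C) (norm_nonneg _))
  exact h.continuous

end

variable (l : I → X →ₗ[ℝ] ℝ)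

/-- points where the second difference in the direction `G` is small -/
def O (G : X) (ε : ℝ) : Set X :=
  {F | ∃ h : ℝ, 0 < h ∧ phi l (F + h • G) + phi l (F - h • G) - 2 * phi l F < h * ε}

variable {l} {C : ℝ} (hC : ∀ i F, |l i F| ≤ C * ‖F‖)

include hC

theorem O_open (G : X) (ε : ℝ) : IsOpen (O l G ε) := by
  have h : O l G ε = ⋃ h : {h : ℝ // 0 < h},
      {F | phi l (F + h.1 • G) + phi l (F - h.1 • G) - 2 * phi l F < h.1 * ε} := by
    ext F
    simp only [O, mem_ofPred_eq, mem_iUnion, Subtype.exists, exists_prop]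
  rw [h]
  refine isOpen_iUnion fun h => ?_
  have hp := phi_cont hC
  exact isOpen_lt (by fun_prop) continuous_const

theorem O_dense (G : X) {ε : ℝ} (hε : 0 < ε) : Dense (O l G ε) := by
  rw [Metric.dense_iff]
  intro F r hr
  by_contra hcon
  rw [Set.not_nonempty_iff_eq_empty] at hcon
  -- a small interval in the direction `G`
  obtain ⟨δ, hδ, hδr⟩ : ∃ δ : ℝ, 0 < δ ∧ δ * ‖G‖ < r := by
    refine ⟨r / (2 * (‖G‖ + 1)), by positivity, ?_⟩
    rw [div_mul_eq_mul_div, div_lt_iff₀ (by positivity)]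
    nlinarith [norm_nonneg G]
  have hnot : ∀ t : ℝ, 0 ≤ t → t ≤ δ → ∀ h : ℝ, 0 < h →
      h * ε ≤ phi l (F + t • G + h • G) + phi l (F + t • G - h • G) - 2 * phi l (F + t • G) := by
    intro t ht htδ h hh
    by_contra hlt
    push Not at hlt
    have hmem : F + t • G ∈ Metric.ball F r ∩ O l G ε := by
      refine ⟨?_, ⟨h, hh, hlt⟩⟩
      rw [Metric.mem_ball, dist_eq_norm, add_sub_cancel_left, norm_smul, Real.norm_eq_abs,
        abs_of_nonneg ht]
      exact (mul_le_mul_of_nonneg_right htδ (norm_nonneg _)).trans_lt hδr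
    rw [hcon] at hmem
    exact hmem
  obtain ⟨N, hN⟩ := exists_nat_gt (2 * (C * ‖G‖) / ε)
  have hCG : 0 ≤ C * ‖G‖ := C_nonneg_or hC G
  have hN0 : (0 : ℝ) < N := lt_of_le_of_lt (by positivity) hN
  set h : ℝ := δ / N with hh
  have hpos : 0 < h := by positivity
  let a : ℕ → ℝ := fun i => phi l (F + ((i + 1 : ℕ) * h) • G) - phi l (F + ((i : ℕ) * h) • G)
  have habs : ∀ i, |a i| ≤ C * ‖G‖ * h := by
    intro i
    have e0 : |a i| ≤ C * ‖F + ((i + 1 : ℕ) * h) • G - (F + ((i : ℕ) * h) • G)‖ :=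
      phi_abs hC (F + ((i + 1 : ℕ) * h) • G) (F + ((i : ℕ) * h) • G)
    refine e0.trans ?_
    have e : F + ((i + 1 : ℕ) * h) • G - (F + ((i : ℕ) * h) • G) = h • G := by
      rw [add_sub_add_left_eq_sub, ← sub_smul]
      congr 1
      push_cast
      ring
    rw [e, norm_smul, Real.norm_eq_abs, abs_of_pos hpos]
    linarith [mul_comm h ‖G‖, mul_assoc C ‖G‖ h]
  have hstep : ∀ i : ℕ, i ≤ N → a 0 + i * (h * ε) ≤ a i := by
    intro i
    induction i with
    | zero => intro _; simp
    | succ i ih =>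
      intro hi
      have h1 := ih (by omega)
      have h2 := hnot ((i + 1 : ℕ) * h) (by positivity) (by
        have h3 : ((i + 1 : ℕ) : ℝ) ≤ N := by exact_mod_cast hi
        calc ((i + 1 : ℕ) : ℝ) * h ≤ N * h := mul_le_mul_of_nonneg_right h3 hpos.le
          _ = δ := by rw [hh]; field_simp) h hpos
      have e1 : F + ((i + 1 : ℕ) * h) • G + h • G = F + ((i + 1 + 1 : ℕ) * h) • G := by
        rw [add_assoc, ← add_smul]
        congr 2
        push_cast
        ring
      have e2 : F + ((i + 1 : ℕ) * h) • G - h • G = F + ((i : ℕ) * h) • G := by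
        rw [add_sub_assoc, ← sub_smul]
        congr 2
        push_cast
        ring
      rw [e1, e2] at h2
      have e3 : a (i + 1) = phi l (F + ((i + 1 + 1 : ℕ) * h) • G) -
        phi l (F + ((i + 1 : ℕ) * h) • G) := rfl
      have e4 : a i = phi l (F + ((i + 1 : ℕ) * h) • G) - phi l (F + ((i : ℕ) * h) • G) := rfl
      rw [e3]
      rw [e4] at h1
      push_cast at h1 h2 ⊢
      linarith
  have h1 := hstep N le_rfl
  have h2 := (abs_le.1 (habs N)).2
  have h3 := (abs_le.1 (habs 0)).1
  have h4 : (N : ℝ) * (h * ε) ≤ 2 * (C * ‖G‖ * h) := by linarith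
  have h5 : (N : ℝ) * ε ≤ 2 * (C * ‖G‖) := by
    have : h * (N * ε) ≤ h * (2 * (C * ‖G‖)) := by linarith
    exact le_of_mul_le_mul_left this hpos
  rw [div_lt_iff₀ hε] at hN
  linarith

theorem maximisers_agree {F G : X}
    (hF : ∀ m : ℕ, F ∈ O l G (1 / ((m : ℝ) + 1))) {i j : I}
    (hi : ∀ k, l k F ≤ l i F) (hj : ∀ k, l k F ≤ l j F) : l i G ≤ l j G := by
  have hi' : phi l F = l i F := le_antisymm (ciSup_le hi) (le_phi hC i F)
  have hj' : phi l F = l j F := le_antisymm (ciSup_le hj) (le_phi hC j F)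
  refine le_of_forall_pos_le_add fun ε hε => ?_
  obtain ⟨m, hm⟩ := exists_nat_one_div_lt hε
  obtain ⟨h, hh, hlt⟩ := hF m
  have h1 := le_phi hC i (F + h • G)
  have h2 := le_phi hC j (F - h • G)
  rw [map_add, map_smul, smul_eq_mul] at h1
  rw [map_sub, map_smul, smul_eq_mul] at h2
  have h3 : h * (l i G - l j G) < h * (1 / ((m : ℝ) + 1)) := by
    have : h * (l i G - l j G) ≤ phi l (F + h • G) + phi l (F - h • G) - 2 * phi l F := by
      rw [mul_sub]
      linarith
    linarith
  have h4 := lt_of_mul_lt_mul_left h3 hh.le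
  linarith

/-- Mazur's theorem for a support function: outside a meagre set of points all maximising functionals
agree. -/
theorem generic [CompleteSpace X] [TopologicalSpace.SeparableSpace X] :
    ∃ 𝒢 : Set X, IsGδ 𝒢 ∧ Dense 𝒢 ∧ ∀ F ∈ 𝒢, ∀ i j : I, (∀ k, l k F ≤ l i F) →
      (∀ k, l k F ≤ l j F) → ∀ G, l i G = l j G := by
  refine ⟨⋂ p : ℕ × ℕ, O l (TopologicalSpace.denseSeq X p.1) (1 / ((p.2 : ℝ) + 1)), ?_, ?_, ?_⟩
  · exact IsGδ.iInter_of_isOpen fun p => O_open hC _ _
  · exact dense_iInter_of_isOpen (fun p => O_open hC _ _) fun p => O_dense hC _ (by positivity)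
  · intro F hF i j hi hj G
    have hF' : ∀ n m : ℕ, F ∈ O l (TopologicalSpace.denseSeq X n) (1 / ((m : ℝ) + 1)) :=
      fun n m => mem_iInter.1 hF (n, m)
    have h1 : ∀ n : ℕ, l i (TopologicalSpace.denseSeq X n) = l j (TopologicalSpace.denseSeq X n) := by
      intro n
      apply le_antisymm
      · exact maximisers_agree (G := TopologicalSpace.denseSeq X n) hC (hF' n) hi hj
      · exact maximisers_agree (G := TopologicalSpace.denseSeq X n) hC (hF' n) hj hi
    have hci : Continuous (l i) := by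
      have h3 := (LinearMap.mkContinuous (l i) C
        (fun F => by rw [Real.norm_eq_abs]; exact hC i F)).continuous
      exact h3
    have hcj : Continuous (l j) := by
      have h3 := (LinearMap.mkContinuous (l j) C
        (fun F => by rw [Real.norm_eq_abs]; exact hC j F)).continuous
      exact h3
    have h4 : (l i : X → ℝ) ∘ TopologicalSpace.denseSeq X =
        (l j : X → ℝ) ∘ TopologicalSpace.denseSeq X := funext h1
    have h2 : (l i : X → ℝ) = (l j : X → ℝ) :=
      DenseRange.equalizer (TopologicalSpace.denseRange_denseSeq X) hci hcj h4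
    exact congrFun h2 G

end Pool.Agent.Run7.H478.EB
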