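import Pool.Agent.Run7.h478.EB.Energy
import Pool.Agent.Run7.h478.EB.Mazur

/-!
# Generic uniqueness of the bond statistics
-/

set_option autoImplicit false
set_option linter.unusedSectionVars false

open MeasureTheory Finset Filter Topology

namespace Pool.Agent.Run7.H478.EB

variable {d : ℕ} {S : Type*} [TopologicalSpace S] [CompactSpace S] [MeasurableSpace S] [BorelSpace S]
variable {ν : Measure (Bond d → S)} {κ κ' : Measure ((Bond d → S) × (Site d → ℝ))}

theorem cm_meas (G : C(S, ℝ)) : Measurable G := G.continuous.measurable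

theorem cm_bound (G : C(S, ℝ)) (s : S) : |G s| ≤ ‖G‖ := G.norm_coe_le_norm s

/-- the linear functional of a stationary law -/
noncomputable def L (h : Stat ν κ) : C(S, ℝ) →ₗ[ℝ] ℝ where
  toFun G := u κ G
  map_add' G H := by
    unfold u
    rw [← Finset.sum_add_distrib]
    refine Finset.sum_congr rfl fun i _ => ?_
    rw [← integral_add (bf_int h (cm_meas G) (cm_bound G) _) (bf_int h (cm_meas H) (cm_bound H) _)]
    refine integral_congr_ae (Filter.Eventually.of_forall fun p => ?_)
    show (G (p.1 (0, i)) + H (p.1 (0, i))) * _ = _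
    unfold bf
    ring
  map_smul' c G := by
    unfold u
    rw [RingHom.id_apply, smul_eq_mul, Finset.mul_sum]
    refine Finset.sum_congr rfl fun i _ => ?_
    rw [← integral_const_mul]
    refine integral_congr_ae (Filter.Eventually.of_forall fun p => ?_)
    show (c * G (p.1 (0, i))) * _ = _
    unfold bf
    ring

theorem L_bound (h : Stat ν κ) (G : C(S, ℝ)) : |L h G| ≤ d * ‖G‖ := by
  have := h.prob
  show |∑ i : Fin d, ∫ p, bf G (0, i) p ∂κ| ≤ _
  refine (Finset.abs_sum_le_sum_abs _ _).trans ?_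
  have h1 : ∀ i ∈ (Finset.univ : Finset (Fin d)), |∫ p, bf G (0, i) p ∂κ| ≤ ‖G‖ := by
    intro i _
    have h2 : ∀ᵐ p ∂κ, ‖bf G ((0, i) : Bond d) p‖ ≤ ‖G‖ := by
      filter_upwards [h.spin] with p hp
      unfold bf
      rw [Real.norm_eq_abs, abs_mul, abs_spin (hp _) (hp _), mul_one]
      exact cm_bound G _
    have h3 := norm_integral_le_of_norm_le_const h2
    rw [probReal_univ, mul_one] at h3
    exact h3
  refine (Finset.sum_le_card_nsmul _ _ _ h1).trans ?_
  rw [Finset.card_univ, Fintype.card_fin, nsmul_eq_mul]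

theorem IsRandomGroundState.stat {F : S → ℝ} (h : IsRandomGroundState ν F κ) : Stat ν κ :=
  ⟨h.prob, h.marginal, h.invariant, h.ground.mono fun _ hp => hp.1⟩

theorem u_eq (κ : Measure ((Bond d → S) × (Site d → ℝ))) (G : S → ℝ) :
    u κ G = ∑ i : Fin d, ∫ p, G (p.1 (0, i)) * (p.2 0 * p.2 (Pi.single i (1 : ℤ))) ∂κ := by
  unfold u bf tip
  simp only [zero_add]

theorem sub_generic [TopologicalSpace.MetrizableSpace S] (ν : Measure (Bond d → S))
    (X : Submodule ℝ C(S, ℝ)) (hX : IsClosed (X : Set C(S, ℝ))) :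
    ∃ 𝒢 : Set X, IsGδ 𝒢 ∧ Dense 𝒢 ∧ ∀ F ∈ 𝒢, ∀ κ κ' : Measure ((Bond d → S) × (Site d → ℝ)),
      IsRandomGroundState ν (F : C(S, ℝ)) κ → IsRandomGroundState ν (F : C(S, ℝ)) κ' →
        ∀ G ∈ X, u κ G = u κ' G := by
  by_cases hne : Nonempty {κ : Measure ((Bond d → S) × (Site d → ℝ)) // Stat ν κ}
  · have hcomp : CompleteSpace X := hX.completeSpace_coe
    have hsep : TopologicalSpace.SeparableSpace X := by
      have h1 : SecondCountableTopology S := inferInstance
      have h2 : SecondCountableTopology C(S, ℝ) := inferInstance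
      have h3 : SecondCountableTopology X := inferInstance
      infer_instance
    let l : {κ : Measure ((Bond d → S) × (Site d → ℝ)) // Stat ν κ} → X →ₗ[ℝ] ℝ := fun κ =>
      (L κ.2).comp X.subtype
    have hC : ∀ i F, |l i F| ≤ (d : ℝ) * ‖F‖ := fun i F => L_bound i.2 (F : C(S, ℝ))
    obtain ⟨𝒢, h1, h2, h3⟩ := generic (X := X)
      (I := {κ : Measure ((Bond d → S) × (Site d → ℝ)) // Stat ν κ}) (l := l) (C := (d : ℝ)) hC
    refine ⟨𝒢, h1, h2, fun F hF κ κ' hκ hκ' G hG => ?_⟩
    exact h3 F hF ⟨κ, hκ.stat⟩ ⟨κ', hκ'.stat⟩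
      (fun k => compare hκ.stat (cm_meas _) (cm_bound _) hκ.ground k.2)
      (fun k => compare hκ'.stat (cm_meas _) (cm_bound _) hκ'.ground k.2) ⟨G, hG⟩
  · exact ⟨Set.univ, IsGδ.univ, dense_univ, fun F _ κ κ' hκ _ => absurd ⟨⟨κ, hκ.stat⟩⟩ hne⟩

theorem full_generic [TopologicalSpace.MetrizableSpace S] (ν : Measure (Bond d → S)) :
    ∃ 𝒢 : Set C(S, ℝ), IsGδ 𝒢 ∧ Dense 𝒢 ∧ ∀ F ∈ 𝒢,
      ∀ κ κ' : Measure ((Bond d → S) × (Site d → ℝ)),
      IsRandomGroundState ν F κ → IsRandomGroundState ν F κ' → ∀ G : C(S, ℝ), u κ G = u κ' G := by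
  by_cases hne : Nonempty {κ : Measure ((Bond d → S) × (Site d → ℝ)) // Stat ν κ}
  · have hsep : TopologicalSpace.SeparableSpace C(S, ℝ) := by
      have h1 : SecondCountableTopology S := inferInstance
      have h2 : SecondCountableTopology C(S, ℝ) := inferInstance
      infer_instance
    let l : {κ : Measure ((Bond d → S) × (Site d → ℝ)) // Stat ν κ} → C(S, ℝ) →ₗ[ℝ] ℝ := fun κ =>
      L κ.2
    have hC : ∀ i F, |l i F| ≤ (d : ℝ) * ‖F‖ := fun i F => L_bound i.2 F
    obtain ⟨𝒢, h1, h2, h3⟩ := generic (X := C(S, ℝ))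
      (I := {κ : Measure ((Bond d → S) × (Site d → ℝ)) // Stat ν κ}) (l := l) (C := (d : ℝ)) hC
    refine ⟨𝒢, h1, h2, fun F hF κ κ' hκ hκ' G => ?_⟩
    exact h3 F hF ⟨κ, hκ.stat⟩ ⟨κ', hκ'.stat⟩
      (fun k => compare hκ.stat (cm_meas _) (cm_bound _) hκ.ground k.2)
      (fun k => compare hκ'.stat (cm_meas _) (cm_bound _) hκ'.ground k.2) G
  · exact ⟨Set.univ, IsGδ.univ, dense_univ, fun F _ κ κ' hκ _ => absurd ⟨⟨κ, hκ.stat⟩⟩ hne⟩

/-- the spins at the bond `(0, i)` are parallel -/
def par (i : Fin d) : Set ((Bond d → S) × (Site d → ℝ)) :=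
  {p | p.2 0 * p.2 (Pi.single i (1 : ℤ)) = 1}

omit [TopologicalSpace S] [CompactSpace S] [BorelSpace S] in
theorem par_meas (i : Fin d) : MeasurableSet (par (S := S) i) := by
  have h2 : ∀ x, Measurable fun p : (Bond d → S) × (Site d → ℝ) => p.2 x := fun x =>
    (measurable_pi_apply x).comp measurable_snd
  exact ((h2 _).mul (h2 _)) (measurableSet_singleton 1)

omit [TopologicalSpace S] [CompactSpace S] [BorelSpace S] in
theorem ev_meas (i : Fin d) :
    Measurable fun p : (Bond d → S) × (Site d → ℝ) => p.1 ((0, i) : Bond d) :=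
  (measurable_pi_apply _).comp measurable_fst

/-- the measure with the values `density` -/
noncomputable def dens (κ : Measure ((Bond d → S) × (Site d → ℝ))) : Measure S :=
  ∑ i : Fin d, (κ.restrict (par i)).map fun p => p.1 ((0, i) : Bond d)

omit [TopologicalSpace S] [CompactSpace S] [BorelSpace S] in
theorem dens_apply (κ : Measure ((Bond d → S) × (Site d → ℝ))) {A : Set S} (hA : MeasurableSet A) :
    dens κ A = density κ A := by
  unfold dens density
  rw [Measure.finsetSum_apply]
  refine Finset.sum_congr rfl fun i _ => ?_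
  rw [Measure.map_apply (ev_meas i) hA, Measure.restrict_apply (ev_meas i hA)]
  rfl

theorem dens_integral (h : Stat ν κ) (G : C(S, ℝ)) :
    ∫ s, G s ∂(dens κ) = (∑ i : Fin d, ∫ U : Bond d → S, G (U (0, i)) ∂ν + u κ G) / 2 := by
  have hp := h.prob
  unfold dens
  rw [integral_finsetSum_measure]
  · unfold u
    rw [← Finset.sum_add_distrib, Finset.sum_div]
    refine Finset.sum_congr rfl fun i _ => ?_
    have hint1 : Integrable (fun p : (Bond d → S) × (Site d → ℝ) => G (p.1 ((0, i) : Bond d))) κ :=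
      Integrable.of_bound ((cm_meas G).comp (ev_meas i)).aestronglyMeasurable ‖G‖
        (Filter.Eventually.of_forall fun p => by rw [Real.norm_eq_abs]; exact cm_bound G _)
    have hint2 := bf_int h (cm_meas G) (cm_bound G) ((0, i) : Bond d)
    have hm : ∫ U : Bond d → S, G (U (0, i)) ∂ν = ∫ p, G (p.1 ((0, i) : Bond d)) ∂κ := by
      rw [← h.marginal]
      exact integral_map measurable_fst.aemeasurable
        ((cm_meas G).comp (measurable_pi_apply ((0, i) : Bond d))).aestronglyMeasurable
    rw [integral_map (ev_meas i).aemeasurable (cm_meas G).aestronglyMeasurable,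
      ← integral_indicator (par_meas i), hm, ← integral_add hint1 hint2, ← integral_div]
    refine integral_congr_ae ?_
    filter_upwards [h.spin] with p hp'
    have h1 : bf G ((0, i) : Bond d) p =
        G (p.1 (0, i)) * (p.2 0 * p.2 (Pi.single i (1 : ℤ))) := by
      unfold bf tip
      simp only [zero_add]
    show (par i).indicator (fun p => G (p.1 ((0, i) : Bond d))) p = _
    rw [h1]
    rcases mul_spin (hp' 0) (hp' (Pi.single i (1 : ℤ))) with h2 | h2
    · rw [Set.indicator_of_mem (show p ∈ par i from h2), h2]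
      ring
    · rw [Set.indicator_of_notMem (show p ∉ par i from fun h3 => by
        have h3' : p.2 0 * p.2 (Pi.single i (1 : ℤ)) = 1 := h3
        rw [h2] at h3'
        norm_num at h3'), h2]
      ring
  · intro i _
    exact Integrable.of_bound (cm_meas G).aestronglyMeasurable ‖G‖
      (Filter.Eventually.of_forall fun p => by rw [Real.norm_eq_abs]; exact cm_bound G _)

theorem dens_eq [TopologicalSpace.MetrizableSpace S] (h : Stat ν κ) (h' : Stat ν κ')
    (hu : ∀ G : C(S, ℝ), u κ G = u κ' G) {A : Set S} (hA : MeasurableSet A) :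
    density κ A = density κ' A := by
  have hp := h.prob
  have hp' := h'.prob
  have f1 : IsFiniteMeasure (dens κ) := by unfold dens; infer_instance
  have f2 : IsFiniteMeasure (dens κ') := by unfold dens; infer_instance
  have h1 : dens κ = dens κ' := by
    apply ext_of_forall_integral_eq_of_IsFiniteMeasure
    intro f
    have e1 := dens_integral h f.toContinuousMap
    have e2 := dens_integral h' f.toContinuousMap
    rw [hu] at e1
    exact e1.trans e2.symm
  rw [← dens_apply κ hA, ← dens_apply κ' hA, h1]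

end Pool.Agent.Run7.H478.EB
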