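import Pool.Agent.Run7.h478.EB.Fin

/-!
# One-parameter families of couplings
-/

set_option autoImplicit false
set_option linter.unusedSectionVars false

open MeasureTheory Finset Filter Topology

namespace Pool.Agent.Run7.H478.EB

variable {d : ℕ} {S : Type*} [TopologicalSpace S] [CompactSpace S] [MeasurableSpace S] [BorelSpace S]
variable {ν : Measure (Bond d → S)}

/-- the value `v` is taken by a random ground state at the parameter `t` -/
def Val (ν : Measure (Bond d → S)) (F G : C(S, ℝ)) (t : ℝ) (v : ℝ) : Prop :=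
  ∃ κ : Measure ((Bond d → S) × (Site d → ℝ)),
    IsRandomGroundState ν (F + t • G : C(S, ℝ)) κ ∧ u κ G = v

theorem val_mono {F G : C(S, ℝ)} {t t' v v' : ℝ} (htt : t < t') (h : Val ν F G t v)
    (h' : Val ν F G t' v') : v ≤ v' := by
  obtain ⟨κ, hκ, rfl⟩ := h
  obtain ⟨κ', hκ', rfl⟩ := h'
  have h1 : L hκ'.stat (F + t • G) ≤ L hκ.stat (F + t • G) :=
    compare hκ.stat (cm_meas (F + t • G)) (cm_bound (F + t • G)) hκ.ground hκ'.stat
  have h2 : L hκ.stat (F + t' • G) ≤ L hκ'.stat (F + t' • G) :=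
    compare hκ'.stat (cm_meas (F + t' • G)) (cm_bound (F + t' • G)) hκ'.ground hκ.stat
  rw [map_add, map_add, map_smul, map_smul, smul_eq_mul, smul_eq_mul] at h1 h2
  have h3 : (t' - t) * (L hκ.stat G) ≤ (t' - t) * (L hκ'.stat G) := by linarith
  exact le_of_mul_le_mul_left h3 (sub_pos.2 htt)

theorem val_countable (ν : Measure (Bond d → S)) (F G : C(S, ℝ)) :
    {t : ℝ | ∃ v v' : ℝ, Val ν F G t v ∧ Val ν F G t v' ∧ v < v'}.Countable := by
  classical
  have h0 : ∀ t : ℝ, ∃ a b : ℝ, (∃ v v' : ℝ, Val ν F G t v ∧ Val ν F G t v' ∧ v < v') →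
      Val ν F G t a ∧ Val ν F G t b ∧ a < b := by
    intro t
    by_cases h : ∃ v v' : ℝ, Val ν F G t v ∧ Val ν F G t v' ∧ v < v'
    · obtain ⟨v, v', h1⟩ := h
      exact ⟨v, v', fun _ => h1⟩
    · exact ⟨0, 0, fun h' => absurd h' h⟩
  choose a b hab using h0
  refine Set.PairwiseDisjoint.countable_of_isOpen (s := fun t => Set.Ioo (a t) (b t)) ?_
    (fun t _ => isOpen_Ioo) (fun t ht => Set.nonempty_Ioo.2 (hab t ht).2.2)
  intro t ht t' ht' hne
  obtain ⟨h1, h2, h3⟩ := hab t ht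
  obtain ⟨h1', h2', h3'⟩ := hab t' ht'
  show Disjoint (Set.Ioo (a t) (b t)) (Set.Ioo (a t') (b t'))
  rw [Set.disjoint_left]
  intro x hx hx'
  rcases lt_or_gt_of_ne hne with h | h
  · have := val_mono h h2 h1'
    linarith [hx.2, hx'.1]
  · have := val_mono h h2' h1
    linarith [hx.1, hx'.2]

/-- for all but countably many parameters the bond average is unique -/
theorem line_unique (ν : Measure (Bond d → S)) (F G : C(S, ℝ)) :
    ∃ N : Set ℝ, N.Countable ∧ ∀ t ∉ N, ∀ κ κ' : Measure ((Bond d → S) × (Site d → ℝ)),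
      IsRandomGroundState ν (F + t • G : C(S, ℝ)) κ →
        IsRandomGroundState ν (F + t • G : C(S, ℝ)) κ' → u κ G = u κ' G := by
  refine ⟨_, val_countable ν F G, fun t ht κ κ' hκ hκ' => ?_⟩
  have h1 : ¬ u κ G < u κ' G := fun h => ht ⟨_, _, ⟨κ, hκ, rfl⟩, ⟨κ', hκ', rfl⟩, h⟩
  have h2 : ¬ u κ' G < u κ G := fun h => ht ⟨_, _, ⟨κ', hκ', rfl⟩, ⟨κ, hκ, rfl⟩, h⟩
  exact le_antisymm (not_lt.1 h2) (not_lt.1 h1)

end Pool.Agent.Run7.H478.EB
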